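import Pool.Agent.Helper74.CP.C
import Pool.Agent.Helper60.CP.Stm2

/-! Part 2C: the equations at a minimum of the action defect, metrics on `S^(2n)`.
Adapted from `Pool.Agent.Helper74.CP.C` (helper74). -/

set_option autoImplicit false

open Real Set MeasureTheory Filter Topology
open scoped ContDiff

namespace Pool.Agent.Helper97.CPS

open Pool.Agent.H206R2.Rot2 (Veff well actW)
open Pool.Agent.H206R2.Rot2.TF (deriv_neg deriv_pos veff_add1 veff_add2 isOpen_Q)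
open Pool.Agent.H206R2.Rot2.TG (left_bound right_bound veff_sub1 veff_sub2 weight_int)
open Pool.Agent.Helper60.CP (IsProfileS KK Dsk Ds)
open Pool.Agent.Helper74.CP
open Pool.Agent.Helper74.CP.C (sqrt_step KK_pos KK_sq fst_le_KK snd_le_KK KK_cont inv_int le_lim ge_lim)

section
variable {L : ℝ} {f h : ℝ → ℝ} (hf : IsProfileS L f h)
include hf

lemma f_ne {r : ℝ} (hr : r ∈ Ioo 0 L) : f r ≠ 0 := (hf.f_pos r hr.1 hr.2).ne'

lemma h_ne {r : ℝ} (hr : r ∈ Ioo 0 L) : h r ≠ 0 := (hf.h_pos r hr.1 hr.2).ne'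

lemma f_zero : f 0 = 0 := by
  have := hf.f_odd 0
  simp at this
  linarith

lemma f_L : f L = 0 := by
  have := hf.f_odd_L 0
  simp at this
  linarith

lemma veff_contDiffOn (c₁ c₂ : ℝ) : ContDiffOn ℝ ∞ (Veff f h c₁ c₂) (Ioo 0 L) := by
  unfold Veff
  exact ((contDiffOn_const.div hf.smooth_f.contDiffOn fun r hr => f_ne hf hr).pow 2).add
    ((contDiffOn_const.div hf.smooth_h.contDiffOn fun r hr => h_ne hf hr).pow 2)

lemma veff_reg (c₁ c₂ : ℝ) {p : ℝ}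
    (hp : p ∈ Ioo 0 L) : (∀ᶠ x in 𝓝 p, DifferentiableAt ℝ (Veff f h c₁ c₂) x) ∧
      DifferentiableAt ℝ (deriv (Veff f h c₁ c₂)) p := by
  have h1 := veff_contDiffOn hf c₁ c₂
  rw [contDiffOn_infty_iff_deriv_of_isOpen isOpen_Ioo] at h1
  constructor
  · filter_upwards [isOpen_Ioo.mem_nhds hp] with x hx
    exact h1.1.differentiableAt (isOpen_Ioo.mem_nhds hx)
  · exact (h1.2.differentiableOn (by simp)).differentiableAt (isOpen_Ioo.mem_nhds hp)

lemma gf_cont : ContinuousOn (fun r => 1 / f r ^ 2) (Ioo 0 L) :=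
  continuousOn_const.div (hf.smooth_f.continuous.continuousOn.pow 2)
    fun r hr => pow_ne_zero 2 (f_ne hf hr)

lemma gh_cont : ContinuousOn (fun r => 1 / h r ^ 2) (Ioo 0 L) :=
  continuousOn_const.div (hf.smooth_h.continuous.continuousOn.pow 2)
    fun r hr => pow_ne_zero 2 (h_ne hf hr)

lemma gf_pos : ∀ r ∈ Ioo 0 L, 0 < 1 / f r ^ 2 :=
  fun _ hr => by have := f_ne hf hr; positivity

lemma gh_pos : ∀ r ∈ Ioo 0 L, 0 < 1 / h r ^ 2 :=
  fun _ hr => by have := h_ne hf hr; positivity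

theorem well_spec {c₁ c₂ : ℝ} (h1 : 0 < c₁)
    {s : ℝ} (hs0 : 0 < s) (hsL : s < L) (hs : Veff f h c₁ c₂ s < 1) :
    ∃ p q, 0 < p ∧ p < s ∧ s < q ∧ q < L ∧ Veff f h c₁ c₂ p = 1 ∧ Veff f h c₁ c₂ q = 1 ∧
      well L (Veff f h c₁ c₂) s = Ioo p q ∧ ∀ x ∈ Ioo p q, Veff f h c₁ c₂ x < 1 := by
  have key : ∀ x ∈ Ioo 0 L, f x < c₁ → 1 ≤ Veff f h c₁ c₂ x := by
    intro x hx hfx
    have hfu : 0 < f x := hf.f_pos x hx.1 hx.2
    have : 1 ≤ c₁ / f x := by rw [le_div_iff₀ hfu]; linarith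
    unfold Veff
    nlinarith [sq_nonneg (c₂ / h x)]
  obtain ⟨u, hu0, hus, hu1⟩ : ∃ u, 0 < u ∧ u < s ∧ 1 ≤ Veff f h c₁ c₂ u := by
    have e1 : Tendsto f (𝓝[>] 0) (𝓝 (f 0)) := hf.smooth_f.continuous.continuousAt.mono_left
      nhdsWithin_le_nhds
    rw [f_zero hf] at e1
    have e2 : ∀ᶠ x in 𝓝[>] (0 : ℝ), f x < c₁ := e1.eventually_lt_const h1
    have e3 : ∀ᶠ x in 𝓝[>] (0 : ℝ), x ∈ Ioo 0 s := Ioo_mem_nhdsGT hs0
    obtain ⟨u, hu, hu'⟩ := (e2.and e3).exists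
    exact ⟨u, hu'.1, hu'.2, key u ⟨hu'.1, hu'.2.trans hsL⟩ hu⟩
  obtain ⟨v, hsv, hvL, hv1⟩ : ∃ v, s < v ∧ v < L ∧ 1 ≤ Veff f h c₁ c₂ v := by
    have e1 : Tendsto f (𝓝[<] L) (𝓝 (f L)) := hf.smooth_f.continuous.continuousAt.mono_left
      nhdsWithin_le_nhds
    rw [f_L hf] at e1
    have e2 : ∀ᶠ x in 𝓝[<] L, f x < c₁ := e1.eventually_lt_const h1
    have e3 : ∀ᶠ x in 𝓝[<] L, x ∈ Ioo s L := Ioo_mem_nhdsLT hsL
    obtain ⟨v, hv, hv'⟩ := (e2.and e3).exists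
    exact ⟨v, hv'.1, hv'.2, key v ⟨hs0.trans hv'.1, hv'.2⟩ hv⟩
  exact well_abs (veff_contDiffOn hf c₁ c₂).continuousOn hu0 hus hsv hvL hu1 hv1 hs

end

lemma isOpen_Dsk (R : ℝ) : IsOpen (Dsk R) := by
  have h1 : IsOpen {c : ℝ × ℝ | 0 < c.1} := isOpen_lt continuous_const continuous_fst
  have h2 : IsOpen {c : ℝ × ℝ | 0 < c.2} := isOpen_lt continuous_const continuous_snd
  have h3 : IsOpen {c : ℝ × ℝ | KK c < R} := isOpen_lt KK_cont continuous_const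
  exact h1.inter (h2.inter h3)

/-- the potential is smaller than one at a common point of the wells -/
lemma veff_lt_one {R u v : ℝ} {f h : ℝ → ℝ} {s : ℝ} {c : ℝ × ℝ} (hR : 0 < R) (hc : KK c < R)
    (hu : R < f s) (hv : R < h s) (_ : u = f s) (_ : v = h s) : Veff f h c.1 c.2 s < 1 := by
  unfold Veff
  have hf0 : 0 < f s := hR.trans hu
  have hh0 : 0 < h s := hR.trans hv
  have hR2 : 0 < R ^ 2 := by positivity
  have h1 : (c.1 / f s) ^ 2 ≤ c.1 ^ 2 / R ^ 2 := by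
    rw [div_pow]
    exact div_le_div_of_nonneg_left (sq_nonneg _) hR2 (pow_le_pow_left₀ hR.le hu.le 2)
  have h2 : (c.2 / h s) ^ 2 ≤ c.2 ^ 2 / R ^ 2 := by
    rw [div_pow]
    exact div_le_div_of_nonneg_left (sq_nonneg _) hR2 (pow_le_pow_left₀ hR.le hv.le 2)
  have h3 : c.1 ^ 2 + c.2 ^ 2 < R ^ 2 := by
    rw [← KK_sq c]
    exact pow_lt_pow_left₀ hc (Real.sqrt_nonneg _) two_ne_zero
  have h4 : c.1 ^ 2 / R ^ 2 + c.2 ^ 2 / R ^ 2 < 1 := by
    rw [← add_div, div_lt_one hR2]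
    exact h3
  linarith

/-- the estimate from above -/
lemma upper {L R : ℝ} {f h : ℝ → ℝ} {s₀ : ℝ} {c : ℝ × ℝ} {G : ℝ → ℝ}
    (hVc : ContinuousOn (Veff f h c.1 c.2) (Ioo 0 L)) (hG : ContinuousOn G (Ioo 0 L))
    (hG0 : ∀ x ∈ Ioo 0 L, 0 < G x) (hc : c ∈ Dsk R)
    (hmin : ∀ c' ∈ Dsk R, Ds L R f h s₀ c ≤ Ds L R f h s₀ c')
    {p q : ℝ} (hp : 0 < p) (hps : p < s₀) (hsq : s₀ < q) (hq : q < L)
    (hVp : Veff f h c.1 c.2 p = 1) (hVq : Veff f h c.1 c.2 q = 1)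
    (hw : well L (Veff f h c.1 c.2) s₀ = Ioo p q)
    (hin : ∀ x ∈ Ioo p q, Veff f h c.1 c.2 x < 1)
    {k : ℝ} (hk : 0 < k) (γ : ℝ → ℝ × ℝ) (hγ : Continuous γ) (hγ0 : γ 0 = c)
    (hVγ : ∀ ε, Veff f h (γ ε).1 (γ ε).2 =
      fun r => Veff f h c.1 c.2 r + ((k + ε) ^ 2 - k ^ 2) * G r)
    {A B : ℝ} (hA : 0 < A) (hB : 0 < B)
    (hcmp : ∀ ε e : ℝ, 0 < ε → 0 < e → ε < e →
      2 * π * (KK (γ ε) - KK c) ≤ (A + B * e) * ε) :
    IntegrableOn (fun r => k * G r / √(1 - Veff f h c.1 c.2 r)) (Ioo p q) ∧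
      2 * ∫ r in Ioo p q, k * G r / √(1 - Veff f h c.1 c.2 r) ≤ A := by
  have hγt : Tendsto γ (𝓝[>] 0) (𝓝 c) := by
    have h2 := hγ.tendsto 0
    rw [hγ0] at h2
    exact tendsto_nhdsWithin_of_tendsto_nhds h2
  have main : ∀ e : ℝ, 0 < e →
      IntegrableOn (fun r => k * G r / √(1 - Veff f h c.1 c.2 r)) (Ioo p q) ∧
        2 * ∫ r in Ioo p q, k * G r / √(1 - Veff f h c.1 c.2 r) ≤ A + B * e := by
    intro e he
    refine abs_F_d hVc hG hG0 hp hps hsq hq hVp hVq hin hk (by positivity)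
      (σ := fun _ => s₀) tendsto_const_nhds ?_
    have e5 : ∀ᶠ ε in 𝓝[>] (0 : ℝ), ε ∈ Ioo (0 : ℝ) e := Ioo_mem_nhdsGT he
    filter_upwards [hγt ((isOpen_Dsk R).mem_nhds hc), e5] with ε hε h5
    have h2 := hmin (γ ε) hε
    have h3 := hcmp ε e h5.1 he h5.2
    simp only [Ds, actW] at h2
    rw [hw, hVγ] at h2
    linarith
  refine ⟨(main 1 one_pos).1, le_lim hB fun e he => (main e he).2⟩

/-- the estimate from below -/
lemma lower {L R : ℝ} {f h : ℝ → ℝ} {s₀ : ℝ} {c : ℝ × ℝ} {G : ℝ → ℝ}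
    (hVc : ContinuousOn (Veff f h c.1 c.2) (Ioo 0 L)) (hG : ContinuousOn G (Ioo 0 L))
    (hG0 : ∀ x ∈ Ioo 0 L, 0 < G x) (hc : c ∈ Dsk R)
    (hmin : ∀ c' ∈ Dsk R, Ds L R f h s₀ c ≤ Ds L R f h s₀ c')
    {p q : ℝ} (hp : 0 < p) (hps : p < s₀) (hsq : s₀ < q) (hq : q < L)
    (hVp : Veff f h c.1 c.2 p = 1) (hVq : Veff f h c.1 c.2 q = 1)
    (hw : well L (Veff f h c.1 c.2) s₀ = Ioo p q)
    (hin : ∀ x ∈ Ioo p q, Veff f h c.1 c.2 x < 1) {a b : ℝ}
    (ha : 0 < a) (hb : 0 < b) (hpd : ∀ᶠ r in 𝓝[<] p, 1 + a * (p - r) ≤ Veff f h c.1 c.2 r)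
    (hqd : ∀ᶠ r in 𝓝[>] q, 1 + b * (r - q) ≤ Veff f h c.1 c.2 r)
    {k : ℝ} (hk : 0 < k) (γ : ℝ → ℝ × ℝ) (hγ : Continuous γ) (hγ0 : γ 0 = c)
    (hVγ : ∀ ε, Veff f h (γ ε).1 (γ ε).2 =
      fun r => Veff f h c.1 c.2 r - (k ^ 2 - (k - ε) ^ 2) * G r)
    {A B : ℝ} (hB : 0 < B) (hAB : ∀ e, 0 < e → e < k → 0 < A - B * e)
    (hcmp : ∀ ε e : ℝ, 0 < ε → 0 < e → e < k → ε < e →
      (A - B * e) * ε ≤ 2 * π * (KK c - KK (γ ε)))
    (hint : IntegrableOn (fun r => k * G r / √(1 - Veff f h c.1 c.2 r)) (Ioo p q)) :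
    A ≤ 2 * ∫ r in Ioo p q, k * G r / √(1 - Veff f h c.1 c.2 r) := by
  have hγt : Tendsto γ (𝓝[>] 0) (𝓝 c) := by
    have h2 := hγ.tendsto 0
    rw [hγ0] at h2
    exact tendsto_nhdsWithin_of_tendsto_nhds h2
  refine ge_lim hB hk fun e he hek => ?_
  refine abs_ge_d hVc hG hG0 hp hps hsq hq hVp hVq hin ha hb hpd hqd hk (hAB e he hek)
    (σ := fun _ => s₀) tendsto_const_nhds ?_ hint
  have e5 : ∀ᶠ ε in 𝓝[>] (0 : ℝ), ε ∈ Ioo (0 : ℝ) e := Ioo_mem_nhdsGT he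
  filter_upwards [hγt ((isOpen_Dsk R).mem_nhds hc), e5] with ε hε h5
  have h2 := hmin (γ ε) hε
  have h3 := hcmp ε e h5.1 he hek h5.2
  simp only [Ds, actW] at h2
  rw [hw, hVγ] at h2
  linarith

theorem t_2C : Pool.Agent.Helper60.CP.S2_C := by
  intro L R s₀ f h c hf hR hs hfs hhs hc hmin
  obtain ⟨hc1, hc2, hc3⟩ := id hc
  obtain ⟨hs0, hsL⟩ := hs
  obtain ⟨p, q, hp, hps, hsq, hq, hVp, hVq, hw, hin⟩ := well_spec hf hc1 hs0 hsL
    (veff_lt_one hR hc3 hfs hhs rfl rfl)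
  have hpq : p < q := hps.trans hsq
  have hVc : ContinuousOn (Veff f h c.1 c.2) (Ioo 0 L) := (veff_contDiffOn hf c.1 c.2).continuousOn
  have hK : 0 < KK c := KK_pos hc1
  have hKsq := KK_sq c
  have hπ := Real.pi_pos
  have hπ2 : 0 < 2 * π := by positivity
  have hsub2 : Icc p q ⊆ Ioo 0 L := fun r hr => ⟨by linarith [hr.1], by linarith [hr.2]⟩
  have k1 := fst_le_KK (c := c)
  have k2 := snd_le_KK (c := c)
  -- comparison of KK
  have up1 : ∀ ε : ℝ, 0 < ε → KK (c.1 + ε, c.2) ≤ KK c + ε * (c.1 + ε / 2) / KK c := by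
    intro ε hε
    refine sqrt_step hK ?_ (by positivity)
    show (c.1 + ε) ^ 2 + c.2 ^ 2 = _
    rw [hKsq]; ring
  have up2 : ∀ ε : ℝ, 0 < ε → KK (c.1, c.2 + ε) ≤ KK c + ε * (c.2 + ε / 2) / KK c := by
    intro ε hε
    refine sqrt_step hK ?_ (by positivity)
    show c.1 ^ 2 + (c.2 + ε) ^ 2 = _
    rw [hKsq]; ring
  have lo1 : ∀ ε : ℝ, 0 < ε → ε < c.1 → KK (c.1 - ε, c.2) ≤ KK c - ε * (c.1 - ε / 2) / KK c := by
    intro ε hε hε1
    have := sqrt_step (K := KK c) (a := -(ε * (c.1 - ε / 2)))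
      (x := (c.1 - ε) ^ 2 + c.2 ^ 2) hK (by rw [hKsq]; ring) (by
        rw [neg_div, ← sub_eq_add_neg, sub_nonneg, div_le_iff₀ hK]
        nlinarith)
    rw [neg_div, ← sub_eq_add_neg] at this
    exact this
  have lo2 : ∀ ε : ℝ, 0 < ε → ε < c.2 → KK (c.1, c.2 - ε) ≤ KK c - ε * (c.2 - ε / 2) / KK c := by
    intro ε hε hε1
    have := sqrt_step (K := KK c) (a := -(ε * (c.2 - ε / 2)))
      (x := c.1 ^ 2 + (c.2 - ε) ^ 2) hK (by rw [hKsq]; ring) (by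
        rw [neg_div, ← sub_eq_add_neg, sub_nonneg, div_le_iff₀ hK]
        nlinarith)
    rw [neg_div, ← sub_eq_add_neg] at this
    exact this
  -- upper estimates
  have F1 := upper (R := R) hVc (gf_cont hf) (gf_pos hf) hc hmin hp hps hsq hq hVp hVq hw hin hc1
    (fun ε => (c.1 + ε, c.2)) (by fun_prop) (by simp)
    (fun ε => veff_add1 f h c.1 c.2 ε) (A := 2 * π * (c.1 / KK c)) (B := 2 * π / KK c)
    (by positivity) (by positivity) (by
      intro ε e hε he hεe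
      have h1 := up1 ε hε
      have h2 : ε * (c.1 + ε / 2) / KK c ≤ ε * (c.1 + e) / KK c := by
        have : ε * (c.1 + ε / 2) ≤ ε * (c.1 + e) := by nlinarith
        gcongr
      have h3 : (2 * π * (c.1 / KK c) + 2 * π / KK c * e) * ε
          = 2 * π * (ε * (c.1 + e) / KK c) := by
        field_simp
      rw [h3]
      refine mul_le_mul_of_nonneg_left ?_ hπ2.le
      show KK (c.1 + ε, c.2) - KK c ≤ _
      linarith)
  have F2 := upper (R := R) hVc (gh_cont hf) (gh_pos hf) hc hmin hp hps hsq hq hVp hVq hw hin hc2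
    (fun ε => (c.1, c.2 + ε)) (by fun_prop) (by simp)
    (fun ε => veff_add2 f h c.1 c.2 ε) (A := 2 * π * (c.2 / KK c)) (B := 2 * π / KK c)
    (by positivity) (by positivity) (by
      intro ε e hε he hεe
      have h1 := up2 ε hε
      have h2 : ε * (c.2 + ε / 2) / KK c ≤ ε * (c.2 + e) / KK c := by
        have : ε * (c.2 + ε / 2) ≤ ε * (c.2 + e) := by nlinarith
        gcongr
      have h3 : (2 * π * (c.2 / KK c) + 2 * π / KK c * e) * ε
          = 2 * π * (ε * (c.2 + e) / KK c) := by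
        field_simp
      rw [h3]
      refine mul_le_mul_of_nonneg_left ?_ hπ2.le
      show KK (c.1, c.2 + ε) - KK c ≤ _
      linarith)
  have hint : IntegrableOn (fun r => 1 / √(1 - Veff f h c.1 c.2 r)) (Ioo p q) :=
    inv_int hVc (gf_cont hf) (gf_pos hf) hp hpq hq hin hc1 F1.1
  have hdp : deriv (Veff f h c.1 c.2) p < 0 := by
    obtain ⟨r1, r2⟩ := veff_reg hf c.1 c.2 (hsub2 (left_mem_Icc.mpr hpq.le))
    exact deriv_neg hpq r1 r2 hVp hin hint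
  have hdq : 0 < deriv (Veff f h c.1 c.2) q := by
    obtain ⟨r1, r2⟩ := veff_reg hf c.1 c.2 (hsub2 (right_mem_Icc.mpr hpq.le))
    exact deriv_pos hpq r1 r2 hVq hin hint
  have b1 := left_bound (veff_reg hf c.1 c.2 (hsub2 (left_mem_Icc.mpr hpq.le))).1.self_of_nhds hdp hVp
  have b2 := right_bound (veff_reg hf c.1 c.2 (hsub2 (right_mem_Icc.mpr hpq.le))).1.self_of_nhds
    hdq hVq
  have G1 := lower (R := R) hVc (gf_cont hf) (gf_pos hf) hc hmin hp hps hsq hq hVp hVq hw hin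
    (by linarith : 0 < -deriv (Veff f h c.1 c.2) p / 2)
    (by linarith : 0 < deriv (Veff f h c.1 c.2) q / 2) b1 b2 hc1
    (fun ε => (c.1 - ε, c.2)) (by fun_prop) (by simp)
    (fun ε => veff_sub1 f h c.1 c.2 ε) (A := 2 * π * (c.1 / KK c)) (B := 2 * π / KK c)
    (by positivity) (by
      intro e he hek
      have h3 : 2 * π * (c.1 / KK c) - 2 * π / KK c * e = 2 * π * ((c.1 - e) / KK c) := by
        field_simp
      rw [h3]
      have : 0 < c.1 - e := by linarith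
      positivity) (by
      intro ε e hε he hek hεe
      have h1 := lo1 ε hε (hεe.trans hek)
      have h2 : ε * (c.1 - e) / KK c ≤ ε * (c.1 - ε / 2) / KK c := by
        have : ε * (c.1 - e) ≤ ε * (c.1 - ε / 2) := by nlinarith
        gcongr
      have h3 : (2 * π * (c.1 / KK c) - 2 * π / KK c * e) * ε
          = 2 * π * (ε * (c.1 - e) / KK c) := by
        field_simp
      rw [h3]
      refine mul_le_mul_of_nonneg_left ?_ hπ2.le
      show _ ≤ KK c - KK (c.1 - ε, c.2)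
      linarith) F1.1
  have G2 := lower (R := R) hVc (gh_cont hf) (gh_pos hf) hc hmin hp hps hsq hq hVp hVq hw hin
    (by linarith : 0 < -deriv (Veff f h c.1 c.2) p / 2)
    (by linarith : 0 < deriv (Veff f h c.1 c.2) q / 2) b1 b2 hc2
    (fun ε => (c.1, c.2 - ε)) (by fun_prop) (by simp)
    (fun ε => veff_sub2 f h c.1 c.2 ε) (A := 2 * π * (c.2 / KK c)) (B := 2 * π / KK c)
    (by positivity) (by
      intro e he hek
      have h3 : 2 * π * (c.2 / KK c) - 2 * π / KK c * e = 2 * π * ((c.2 - e) / KK c) := by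
        field_simp
      rw [h3]
      have : 0 < c.2 - e := by linarith
      positivity) (by
      intro ε e hε he hek hεe
      have h1 := lo2 ε hε (hεe.trans hek)
      have h2 : ε * (c.2 - e) / KK c ≤ ε * (c.2 - ε / 2) / KK c := by
        have : ε * (c.2 - e) ≤ ε * (c.2 - ε / 2) := by nlinarith
        gcongr
      have h3 : (2 * π * (c.2 / KK c) - 2 * π / KK c * e) * ε
          = 2 * π * (ε * (c.2 - e) / KK c) := by
        field_simp
      rw [h3]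
      refine mul_le_mul_of_nonneg_left ?_ hπ2.le
      show _ ≤ KK c - KK (c.1, c.2 - ε)
      linarith) F2.1
  have e1 : (fun r => c.1 / (f r ^ 2 * √(1 - Veff f h c.1 c.2 r))) =
      fun r => c.1 * (1 / f r ^ 2) / √(1 - Veff f h c.1 c.2 r) := by
    funext r
    rw [div_mul_eq_div_div, mul_one_div]
  have e2 : (fun r => c.2 / (h r ^ 2 * √(1 - Veff f h c.1 c.2 r))) =
      fun r => c.2 * (1 / h r ^ 2) / √(1 - Veff f h c.1 c.2 r) := by
    funext r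
    rw [div_mul_eq_div_div, mul_one_div]
  refine ⟨p, q, hp, hps, hsq, hq, hVp, hVq, hw, hin, hdp, hdq, hint, ?_, ?_⟩
  · rw [e1]; exact le_antisymm F1.2 G1
  · rw [e2]; exact le_antisymm F2.2 G2

end Pool.Agent.Helper97.CPS
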